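import Pool.Agent.Q324.OCR.Main
import Pool.Agent.Q324.Base.Alg

/-!
# MP_391ee8_lc: optimal-colouring reconfiguration is NP-hard on bipartite, hence perfect, graphs
-/

namespace Pool.Agent.Results.MP_391ee8_lc.BipartiteNPHard

open Pool.Agent.NPC Pool.Agent.H692R2 Pool.Agent.Q324.OCR Pool.Agent.Q324.Base Pool.Agent.Q324.Lab

theorem hard : HardPr (fun I : Inst => I.1.graph.Colorable 2 ∧ Valid I) Ask := by
  refine hardPr_SAT3b.trans poly_red ?_ ?_
  · rintro φ ⟨-, hb, hφ⟩
    exact ⟨two_col φ, red_valid hφ hb⟩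
  · rintro φ ⟨-, hb, hφ⟩
    exact red_iff hφ hb

/-- Optimal-colouring reconfiguration is `NP`-hard on bipartite graphs, and therefore on perfect
graphs: deciding whether `χ(G, k, f₀) ≤ t` for a bipartite (perfect) graph `G` with a proper
`k`-colouring `f₀` is `NP`-hard; and if `χ(G, k, f₀)` is computed by a polynomial-time algorithm for
all bipartite graphs `G`, then `P = NP`. -/
theorem result :
    (∀ G : FinGraph, G.graph.Colorable 2 → IsPerfect G.graph) ∧
    NPHardP (fun I : Inst => I.1.graph.Colorable 2 ∧ Valid I ∧ Ask I) ∧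
    NPHardP (fun I : Inst => IsPerfect I.1.graph ∧ Valid I ∧ Ask I) ∧
    ∀ (f : FinGraph × ℕ × List ℕ → ℕ) (F : List Bool → List Bool), PolyTime F →
      (∀ I, F (bits I) = bits (f I)) →
      (∀ I : Inst, I.1.graph.Colorable 2 → Valid I →
        f (I.1, I.2.1, I.2.2.2) = chi I.1.graph I.2.1 I.f₀) →
      ∀ L : Set (List Bool), InNP L → InP L := by
  refine ⟨fun G => perfect_of_two, ?_, ?_, ?_⟩
  · refine HardI.toNPHardP fun L hL => ?_
    obtain ⟨f, hf, hfp, hfL⟩ := hard L hL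
    exact ⟨f, hf, fun x => (hfL x).trans
      ⟨fun h => ⟨(hfp x).1, (hfp x).2, h⟩, fun h => h.2.2⟩⟩
  · refine HardI.toNPHardP fun L hL => ?_
    obtain ⟨f, hf, hfp, hfL⟩ := hard L hL
    exact ⟨f, hf, fun x => (hfL x).trans
      ⟨fun h => ⟨perfect_of_two (hfp x).1, (hfp x).2, h⟩, fun h => h.2.2⟩⟩
  · intro f F hF hFf hs
    have h1 : Poly f := poly_of_polyTime hF hFf
    have h2 : Poly (fun I : Inst => f (I.1, I.2.1, I.2.2.2)) :=
      h1.comp (Poly.pair (Poly.fst Poly.id) (Poly.pair (Poly.fst (Poly.snd Poly.id))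
        (Poly.snd (Poly.snd (Poly.snd Poly.id)))))
    have h3 : Poly (fun I : Inst => decide (f (I.1, I.2.1, I.2.2.2) ≤ I.2.2.1)) := by fun_prop
    refine hard.collapse h3 fun I hI => ?_
    rw [hs I hI.1 hI.2, decide_eq_true_eq]
    exact Iff.rfl

end Pool.Agent.Results.MP_391ee8_lc.BipartiteNPHard
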